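import Pool.Agent.W179.Erdos

set_option autoImplicit false

/-! # A finite family containing an oriented forest which is not `k`-nice for any large `k` -/

namespace Pool.Agent.Results.MP_a09a01_co.NotNice

/-- An oriented graph on the vertex set `V`: `Arc a b` says that there is an arc from `a` to `b`;
there are no loops and no directed cycles of length 2. -/
structure OGraph (V : Type) where
  Arc : V → V → Prop
  asymm : ∀ a b, Arc a b → ¬ Arc b a

/-- The underlying undirected graph of an oriented graph. -/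
def OGraph.under {V : Type} (D : OGraph V) : SimpleGraph V where
  Adj a b := D.Arc a b ∨ D.Arc b a
  symm := ⟨fun _ _ h => h.symm⟩
  loopless := ⟨fun a h => by rcases h with h | h <;> exact D.asymm _ _ h h⟩

/-- A tournament: every two distinct vertices are joined by an arc. -/
def OGraph.IsTournament {V : Type} (D : OGraph V) : Prop :=
  ∀ a b, a ≠ b → D.Arc a b ∨ D.Arc b a

/-- `c` is an `𝓕`-free colouring of the arcs of `D` with `k` colours (`c a b` is the colour of the
arc `a → b`): no colour class contains a copy of a member of the finite family `𝓕`. -/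
def FreeColouring (𝓕 : List (Σ m, OGraph (Fin m))) (k : ℕ) {V : Type} (D : OGraph V)
    (c : V → V → Fin k) : Prop :=
  ∀ F ∈ 𝓕, ∀ j : Fin k, ¬ ∃ f : Fin F.1 → V, Function.Injective f ∧
    ∀ a b, F.2.Arc a b → D.Arc (f a) (f b) ∧ c (f a) (f b) = j

/-- `p_k(𝓕)`: the largest number of vertices of a tournament whose arcs admit an `𝓕`-free
`k`-colouring. -/
noncomputable def p (k : ℕ) (𝓕 : List (Σ m, OGraph (Fin m))) : ℕ∞ :=
  sSup {x | ∃ (n : ℕ) (D : OGraph (Fin n)), D.IsTournament ∧ (∃ c, FreeColouring 𝓕 k D c) ∧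
    x = (n : ℕ∞)}

/-- `q_k(𝓕)`: the largest chromatic number of an oriented graph whose arcs admit an `𝓕`-free
`k`-colouring. -/
noncomputable def q (k : ℕ) (𝓕 : List (Σ m, OGraph (Fin m))) : ℕ∞ :=
  sSup {x | ∃ (n : ℕ) (D : OGraph (Fin n)), (∃ c, FreeColouring 𝓕 k D c) ∧
    x = D.under.chromaticNumber}

/-- `𝓕` is `k`-nice. -/
def Nice (k : ℕ) (𝓕 : List (Σ m, OGraph (Fin m))) : Prop := p k 𝓕 = q k 𝓕

/-- The directed path with two arcs. -/
def P : OGraph (Fin 3) where
  Arc a b := (a = 0 ∧ b = 1) ∨ (a = 1 ∧ b = 2)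
  asymm := by decide

/-- The antidirected 4-cycle. -/
def A : OGraph (Fin 4) where
  Arc a b := (a = 0 ∨ a = 2) ∧ (b = 1 ∨ b = 3)
  asymm := by decide

/-- The family. -/
def fam : List (Σ m, OGraph (Fin m)) := [⟨3, P⟩, ⟨4, A⟩]

theorem P_acyclic : P.under.IsAcyclic := by
  classical
  haveI : DecidableRel P.under.Adj := by
    intro a b
    unfold OGraph.under P
    dsimp only
    infer_instance
  intro v w hw
  have h1 := hw.three_le_length
  have h2 := hw.isTrail.length_le_card_edgeFinset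
  have h3 : P.under.edgeFinset.card ≤ 2 := by
    have : P.under.edgeFinset ⊆ {s(0, 1), s(1, 2)} := by
      intro e he
      rw [SimpleGraph.mem_edgeFinset] at he
      induction e using Sym2.ind with
      | _ a b =>
        rw [SimpleGraph.mem_edgeSet] at he
        rcases he with (⟨rfl, rfl⟩ | ⟨rfl, rfl⟩) | (⟨rfl, rfl⟩ | ⟨rfl, rfl⟩) <;> simp [Sym2.eq_swap]
    exact (Finset.card_le_card this).trans Finset.card_le_two
  omega

theorem arc_ne {V : Type} (D : OGraph V) {a b : V} (h : D.Arc a b) : a ≠ b := by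
  rintro rfl
  exact D.asymm _ _ h h

theorem no2 {k : ℕ} {V : Type} {D : OGraph V} {c : V → V → Fin k} (h : FreeColouring fam k D c)
    {u v w : V} (h1 : D.Arc u v) (h2 : D.Arc v w) : c u v ≠ c v w := by
  intro heq
  apply h ⟨3, P⟩ (by simp [fam]) (c u v)
  have huv := arc_ne D h1
  have hvw := arc_ne D h2
  have huw : u ≠ w := by
    rintro rfl
    exact D.asymm _ _ h1 h2
  refine ⟨![u, v, w], ?_, ?_⟩
  · intro i j hij
    fin_cases i <;> fin_cases j <;> simp_all
  · intro i j hij
    rcases hij with ⟨rfl, rfl⟩ | ⟨rfl, rfl⟩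
    · exact ⟨h1, rfl⟩
    · exact ⟨h2, heq.symm⟩

theorem noA {k : ℕ} {V : Type} {D : OGraph V} {c : V → V → Fin k} (h : FreeColouring fam k D c)
    (j : Fin k) {a b x y : V} (h1 : D.Arc a b ∧ c a b = j) (h2 : D.Arc a y ∧ c a y = j)
    (h3 : D.Arc x b ∧ c x b = j) (h4 : D.Arc x y ∧ c x y = j) (hax : a ≠ x) (hby : b ≠ y) :
    False := by
  apply h ⟨4, A⟩ (by simp [fam]) j
  have e1 := arc_ne D h1.1
  have e2 := arc_ne D h2.1
  have e3 := arc_ne D h3.1
  have e4 := arc_ne D h4.1
  refine ⟨![a, b, x, y], ?_, ?_⟩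
  · intro i j hij
    fin_cases i <;> fin_cases j <;> simp_all
  · intro i j hij
    obtain ⟨rfl | rfl, rfl | rfl⟩ := hij
    · exact h1
    · exact h2
    · exact h3
    · exact h4

theorem p_le (k : ℕ) (hk : 1 ≤ k) : p k fam ≤ ((k + 1) ^ 3 : ℕ) := by
  classical
  apply sSup_le
  rintro x ⟨n, D, hT, ⟨c, hc⟩, rfl⟩
  rw [Nat.cast_le]
  by_contra hn
  push Not at hn
  have hn' : (k + 1) + (k + 1) * ((k + 1) * k) < n := by
    have : (k + 1) ^ 3 = (k + 1) + (k + 1) * ((k + 1) * k) + k * (k + 1) := by ring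
    nlinarith
  have hkn : k + 1 < n := by
    have : 0 ≤ (k + 1) * ((k + 1) * k) := Nat.zero_le _
    omega
  let em : Fin (k + 1) → Fin n := fun i => ⟨i.val, by omega⟩
  have hem : Function.Injective em := by
    intro i j hij
    have := congrArg Fin.val hij
    exact Fin.ext this
  let col : Fin n → Fin n → Fin k := fun x y => if D.Arc x y then c x y else c y x
  have hpig : ∀ y : {y : Fin n // k + 1 ≤ y.val}, ∃ ab : Fin (k + 1) × Fin (k + 1),
      ab.1 ≠ ab.2 ∧ col (em ab.1) y.1 = col (em ab.2) y.1 := by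
    intro y
    have := Fintype.exists_ne_map_eq_of_card_lt (fun i : Fin (k + 1) => col (em i) y.1) (by simp)
    obtain ⟨a, b, hab, h⟩ := this
    exact ⟨(a, b), hab, h⟩
  choose g hg1 hg2 using hpig
  have hcard : Fintype.card (Fin (k + 1) × Fin (k + 1) × Fin k) <
      Fintype.card {y : Fin n // k + 1 ≤ y.val} := by
    have h1 : Fintype.card {y : Fin n // k + 1 ≤ y.val} = n - (k + 1) := by
      rw [Fintype.card_subtype]
      have h2 : (Finset.univ.filter fun y : Fin n => k + 1 ≤ y.val) =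
          Finset.Ici (⟨k + 1, hkn⟩ : Fin n) := by
        ext y
        simp [Fin.le_def]
      rw [h2, Fin.card_Ici]
    rw [h1]
    simp only [Fintype.card_prod, Fintype.card_fin]
    omega
  obtain ⟨y, z, hyz, hgz⟩ := Fintype.exists_ne_map_eq_of_card_lt
    (fun y : {y : Fin n // k + 1 ≤ y.val} => ((g y).1, (g y).2, col (em (g y).1) y.1)) hcard
  simp only [Prod.mk.injEq] at hgz
  obtain ⟨ha, hb, hcol⟩ := hgz
  set a := em (g y).1 with hadef
  set b := em (g y).2 with hbdef
  have hab : a ≠ b := fun h => hg1 y (hem h)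
  have hyz' : y.1 ≠ z.1 := fun h => hyz (Subtype.ext h)
  set j := col a y.1 with hj
  have hne : ∀ (i : Fin (k + 1)) (y : {y : Fin n // k + 1 ≤ y.val}), em i ≠ y.1 := by
    intro i y h
    have h1 := congrArg Fin.val h
    have h2 := y.2
    have h3 := i.2
    simp only [em] at h1
    omega
  have hE : ∀ (i : Fin (k + 1)) (w : {y : Fin n // k + 1 ≤ y.val}), col (em i) w.1 = j →
      (D.Arc (em i) w.1 ∧ c (em i) w.1 = j) ∨ (D.Arc w.1 (em i) ∧ c w.1 (em i) = j) := by
    intro i w h
    by_cases h1 : D.Arc (em i) w.1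
    · left
      refine ⟨h1, ?_⟩
      simpa only [col, h1, if_true] using h
    · right
      have h2 := (hT _ _ (hne i w)).resolve_left h1
      refine ⟨h2, ?_⟩
      simpa only [col, h1, if_false] using h
  have e1 := hE (g y).1 y rfl
  have e2 := hE (g y).2 y (hg2 y).symm
  have e3 := hE (g y).1 z (by rw [ha]; rw [← hcol])
  have e4 := hE (g y).2 z (by rw [hb, ← hg2 z, ← hcol])
  have N2 : ∀ u v w, (D.Arc u v ∧ c u v = j) → (D.Arc v w ∧ c v w = j) → False := by
    intro u v w h1 h2
    exact no2 hc h1.1 h2.1 (h1.2.trans h2.2.symm)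
  rcases e1 with e1 | e1
  · have e2' := e2.resolve_right fun h => N2 _ _ _ e1 h
    have e3' := e3.resolve_right fun h => N2 _ _ _ h e1
    have e4' := e4.resolve_right fun h => N2 _ _ _ h e2'
    exact noA hc j e1 e3' e2' e4' hab hyz'
  · have e2' := e2.resolve_left fun h => N2 _ _ _ h e1
    have e3' := e3.resolve_left fun h => N2 _ _ _ e1 h
    have e4' := e4.resolve_left fun h => N2 _ _ _ e2' h
    exact noA hc j e1 e2' e3' e4' hyz' hab

theorem q_le (k : ℕ) : q k fam ≤ (2 ^ k : ℕ) := by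
  classical
  apply sSup_le
  rintro x ⟨n, D, ⟨c, hc⟩, rfl⟩
  rw [SimpleGraph.chromaticNumber_le_iff_colorable]
  have key : ∀ u v, D.Arc u v → (fun i => decide (∃ w, D.Arc u w ∧ c u w = i)) ≠
      (fun i => decide (∃ w, D.Arc v w ∧ c v w = i)) := by
    intro u v h heq
    have h1 := congrFun heq (c u v)
    have h2 : (∃ w, D.Arc u w ∧ c u w = c u v) := ⟨v, h, rfl⟩
    have h3 : ¬ ∃ w, D.Arc v w ∧ c v w = c u v := by
      rintro ⟨w, hw1, hw2⟩
      exact no2 hc h hw1 hw2.symm
    simp [h2, h3] at h1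
  have C : D.under.Coloring (Fin k → Bool) :=
    SimpleGraph.Coloring.mk (fun u i => decide (∃ w, D.Arc u w ∧ c u w = i)) (by
      intro u v h
      rcases h with h | h
      · exact key u v h
      · exact (key v u h).symm)
  have := C.colorable
  simpa using this

/-- a graph without 4-cycles whose chromatic number is exactly `M + 1` -/
theorem exact_graph (M : ℕ) : ∃ (n : ℕ) (G : SimpleGraph (Fin n)), G.Colorable (M + 1) ∧
    ¬ G.Colorable M ∧ ∀ a b x y, a ≠ x → b ≠ y → G.Adj a b → G.Adj b x → G.Adj x y →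
      G.Adj y a → False := by
  classical
  obtain ⟨V, _, H, hH, hcyc⟩ := Pool.Agent.W179.Erdos.erdos M 4
  have hex : ∃ N, H.Colorable N := ⟨_, H.colorable_of_fintype⟩
  obtain ⟨col⟩ := Nat.find_spec hex
  have hmin : ∀ m, m < Nat.find hex → ¬ H.Colorable m := fun m hm => Nat.find_min hex hm
  set N := Nat.find hex with hN
  have hMN : M < N := by
    by_contra hlt
    push Not at hlt
    exact hH (SimpleGraph.Colorable.mono hlt ⟨col⟩)
  let S : Type := {v : V // (col v).val < M + 1}
  let e : S ≃ Fin (Fintype.card S) := Fintype.equivFin S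
  let G : SimpleGraph (Fin (Fintype.card S)) := H.comap (fun i => (e.symm i).1)
  refine ⟨_, G, ?_, ?_, ?_⟩
  · refine ⟨SimpleGraph.Coloring.mk (fun i => (⟨(col (e.symm i).1).val, (e.symm i).2⟩ :
      Fin (M + 1))) ?_⟩
    intro u v h heq
    have h1 : H.Adj (e.symm u).1 (e.symm v).1 := h
    apply col.valid h1
    exact Fin.ext (Fin.mk.inj heq)
  · rintro ⟨c1⟩
    apply hmin (N - 1) (by omega)
    refine ⟨SimpleGraph.Coloring.mk (fun v => if h : (col v).val < M + 1 then
      (⟨(c1 (e ⟨v, h⟩)).val, by have := (c1 (e ⟨v, h⟩)).2; omega⟩ : Fin (N - 1)) else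
      ⟨(col v).val - 1, by have := (col v).2; omega⟩) ?_⟩
    intro u v h heq
    by_cases hu : (col u).val < M + 1
    · by_cases hv : (col v).val < M + 1
      · simp only [hu, hv, dif_pos] at heq
        have h1 : c1 (e ⟨u, hu⟩) = c1 (e ⟨v, hv⟩) := Fin.ext (Fin.mk.inj heq)
        have h2 : G.Adj (e ⟨u, hu⟩) (e ⟨v, hv⟩) := by
          show H.Adj _ _
          simpa using h
        exact c1.valid h2 h1
      · simp only [hu, hv, dif_pos, dif_neg, not_false_eq_true] at heq
        have h1 := congrArg Fin.val heq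
        simp only at h1
        have := (c1 (e ⟨u, hu⟩)).2
        omega
    · by_cases hv : (col v).val < M + 1
      · simp only [hu, hv, dif_pos, dif_neg, not_false_eq_true] at heq
        have h1 := congrArg Fin.val heq
        simp only at h1
        have := (c1 (e ⟨v, hv⟩)).2
        omega
      · simp only [hu, hv, dif_neg, not_false_eq_true] at heq
        have h1 := congrArg Fin.val heq
        simp only at h1
        apply col.valid h
        apply Fin.ext
        omega
  · intro a b x y hax hby h1 h2 h3 h4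
    have g1 : H.Adj (e.symm a).1 (e.symm b).1 := h1
    have g2 : H.Adj (e.symm b).1 (e.symm x).1 := h2
    have g3 : H.Adj (e.symm x).1 (e.symm y).1 := h3
    have g4 : H.Adj (e.symm y).1 (e.symm a).1 := h4
    have gax : (e.symm a).1 ≠ (e.symm x).1 := fun h => hax (e.symm.injective (Subtype.ext h))
    have gby : (e.symm b).1 ≠ (e.symm y).1 := fun h => hby (e.symm.injective (Subtype.ext h))
    have := hcyc 4 (fun i => if i = 0 then (e.symm a).1 else if i = 1 then (e.symm b).1 else
      if i = 2 then (e.symm x).1 else (e.symm y).1) ⟨by norm_num, by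
        intro i hi j hj hij
        have n1 := g1.ne
        have n2 := g2.ne
        have n3 := g3.ne
        have n4 := g4.ne
        interval_cases i <;> interval_cases j <;> simp_all, by
        intro i hi
        have : i < 3 := by omega
        interval_cases i <;> simpa, by simpa using g4⟩
    omega

theorem exists_sel (k : ℕ) (hk : 1 ≤ k) : ∃ d : (Fin k → Bool) → (Fin k → Bool) → Fin k,
    (∀ x y, d x y = d y x) ∧ ∀ x y : Fin k → Bool, x ≠ y → x (d x y) ≠ y (d x y) := by
  have h : ∀ s : Sym2 (Fin k → Bool), ∃ i : Fin k, ∀ x y, s = s(x, y) → x ≠ y → x i ≠ y i := by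
    intro s
    induction s using Sym2.ind with
    | _ x y =>
      by_cases hxy : x = y
      · refine ⟨⟨0, hk⟩, ?_⟩
        intro x' y' h hne
        exfalso
        rcases Sym2.eq_iff.mp h with ⟨h1, h2⟩ | ⟨h1, h2⟩
        · exact hne (h1 ▸ h2 ▸ hxy)
        · exact hne (h1 ▸ h2 ▸ hxy.symm)
      · obtain ⟨i, hi⟩ := Function.ne_iff.mp hxy
        refine ⟨i, ?_⟩
        intro x' y' h hne
        rcases Sym2.eq_iff.mp h with ⟨rfl, rfl⟩ | ⟨rfl, rfl⟩
        · exact hi
        · exact hi.symm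
  choose g hg using h
  exact ⟨fun x y => g s(x, y), fun x y => congrArg g Sym2.eq_swap, fun x y hxy => hg _ x y rfl hxy⟩

theorem le_q (k : ℕ) (hk : 1 ≤ k) : ((2 ^ k : ℕ) : ℕ∞) ≤ q k fam := by
  classical
  obtain ⟨M, hM⟩ : ∃ M, 2 ^ k = M + 1 := ⟨2 ^ k - 1, by have := Nat.one_le_two_pow (n := k); omega⟩
  obtain ⟨n, G, hG1, hG2, hG4⟩ := exact_graph M
  obtain ⟨κ0⟩ := hG1
  have heq : Fintype.card (Fin (M + 1)) = Fintype.card (Fin k → Bool) := by
    simp [hM]
  let κ : Fin n → (Fin k → Bool) := fun v => Fintype.equivOfCardEq heq (κ0 v)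
  have hκ : ∀ u v, G.Adj u v → κ u ≠ κ v := by
    intro u v h heq'
    exact κ0.valid h ((Fintype.equivOfCardEq heq).injective heq')
  obtain ⟨d, hd1, hd2⟩ := exists_sel k hk
  let D : OGraph (Fin n) :=
    { Arc := fun u v => G.Adj u v ∧ κ u (d (κ u) (κ v)) = true
      asymm := by
        rintro u v ⟨h1, h2⟩ ⟨h3, h4⟩
        apply hd2 _ _ (hκ u v h1)
        rw [h2, hd1, h4] }
  have hfalse : ∀ u v, D.Arc u v → κ v (d (κ u) (κ v)) = false := by
    rintro u v ⟨h1, h2⟩
    have := hd2 _ _ (hκ u v h1)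
    rw [h2] at this
    simpa using this.symm
  have hunder : D.under = G := by
    ext u v
    constructor
    · rintro (h | h)
      · exact h.1
      · exact h.1.symm
    · intro h
      have h1 := hd2 _ _ (hκ u v h)
      by_cases h2 : κ u (d (κ u) (κ v)) = true
      · exact Or.inl ⟨h, h2⟩
      · right
        refine ⟨h.symm, ?_⟩
        rw [hd1]
        have h3 : κ u (d (κ u) (κ v)) = false := by simpa using h2
        rw [h3] at h1
        simpa using h1.symm
  apply le_sSup_of_le (b := D.under.chromaticNumber)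
  · refine ⟨n, D, ⟨fun u v => d (κ u) (κ v), ?_⟩, rfl⟩
    intro F hF j
    simp only [fam, List.mem_cons, List.not_mem_nil, or_false] at hF
    rcases hF with rfl | rfl
    · rintro ⟨f, hf, h⟩
      have h1 := h 0 1 (Or.inl ⟨rfl, rfl⟩)
      have h2 := h 1 2 (Or.inr ⟨rfl, rfl⟩)
      have h3 := hfalse _ _ h1.1
      have h4 := h2.1.2
      have h5 : d (κ (f 0)) (κ (f 1)) = j := h1.2
      have h6 : d (κ (f 1)) (κ (f 2)) = j := h2.2
      rw [h5] at h3
      rw [h6] at h4
      rw [h3] at h4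
      exact Bool.noConfusion h4
    · rintro ⟨f, hf, h⟩
      have h1 := h 0 1 ⟨Or.inl rfl, Or.inl rfl⟩
      have h2 := h 0 3 ⟨Or.inl rfl, Or.inr rfl⟩
      have h3 := h 2 1 ⟨Or.inr rfl, Or.inl rfl⟩
      have h4 := h 2 3 ⟨Or.inr rfl, Or.inr rfl⟩
      refine hG4 (f 0) (f 1) (f 2) (f 3) ?_ ?_ h1.1.1 h3.1.1.symm h4.1.1 h2.1.1.symm
      · intro h
        exact absurd (hf h) (by decide)
      · intro h
        exact absurd (hf h) (by decide)
  · rw [hunder, hM]
    by_contra hlt
    push Not at hlt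
    apply hG2
    rw [← SimpleGraph.chromaticNumber_le_iff_colorable]
    have : ((M + 1 : ℕ) : ℕ∞) = (M : ℕ∞) + 1 := by push_cast; rfl
    rw [this] at hlt
    exact ENat.lt_add_one_iff (ENat.natCast_ne_top M) |>.mp hlt

theorem two_pow_gt (k : ℕ) (hk : 11 ≤ k) : (k + 1) ^ 3 < 2 ^ k := by
  induction k, hk using Nat.le_induction with
  | base => norm_num
  | succ m hm ih =>
    have h1 : 2 ^ (m + 1) = 2 * 2 ^ m := by ring
    rw [h1]
    have h2 : (m + 1 + 1) ^ 3 ≤ 2 * (m + 1) ^ 3 := by nlinarith [mul_self_nonneg m]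
    omega

/-- There is a finite family `𝓕` of oriented graphs, one of whose members is an oriented forest,
such that for every `k ≥ 1` one has `p_k(𝓕) ≤ (k+1)^3` and `q_k(𝓕) = 2^k`; in particular `𝓕` is not
`k`-nice for any `k ≥ 11`. -/
theorem result : ∃ 𝓕 : List (Σ m, OGraph (Fin m)),
    (∃ F ∈ 𝓕, F.2.under.IsAcyclic) ∧
    (∀ k : ℕ, 1 ≤ k → p k 𝓕 ≤ ((k + 1) ^ 3 : ℕ) ∧ q k 𝓕 = ((2 ^ k : ℕ) : ℕ∞)) ∧
    ∀ k : ℕ, 11 ≤ k → ¬ Nice k 𝓕 := by
  refine ⟨fam, ⟨⟨3, P⟩, by simp [fam], P_acyclic⟩, fun k hk => ⟨p_le k hk,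
    le_antisymm (q_le k) (le_q k hk)⟩, ?_⟩
  intro k hk hN
  have h1 := p_le k (by omega)
  have h2 := le_q k (by omega)
  have h3 := two_pow_gt k hk
  unfold Nice at hN
  rw [← hN] at h2
  have h4 := h2.trans h1
  rw [Nat.cast_le] at h4
  omega

end Pool.Agent.Results.MP_a09a01_co.NotNice
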